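import Pool.Agent.Helper368_LD.FSieve

/-!
# The logarithmic derivative formula under the hypothesis of the problem

Let all zeros of the `L(s, χ_n)`, `n` odd and squarefree, in the critical strip lie on the critical
line. Then for fixed `c > 0` and `M` the sum of `L'/L(1/2 + r, χ_n)` over the odd squarefree `n ≤ X`
equals the sum of the two main terms of the ratios formula up to `(1 + |Im r|) X^{1 - Re r} (log X)^{-M}`,
for `c ≤ Re r ≤ 2/5`.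
-/

set_option autoImplicit false

namespace Pool.Agent.Results.MP_d713a4_nt.Asymptotic

open Complex MeasureTheory Set
open scoped Real
open Pool.Agent.H491R3.J (GRHJ)
open Pool.Agent.Helper368_LD

/-- the term `n = 1` -/
theorem zeta_term (hG : GRHJ) {c : ℝ} (hc : 0 < c) {r : ℂ} (hσc : c ≤ r.re) (hσ1 : r.re ≤ 2 / 5) :
    ‖deriv riemannZeta (1 / 2 + r) / riemannZeta (1 / 2 + r)‖ ≤ (320 / c ^ 2 + 10) * (1 + |r.im|) := by
  set σ := r.re with hσd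
  set t := r.im with htd
  have ht := abs_nonneg t
  have hσ : 0 < σ := by linarith
  have hsre : (1 / 2 + r).re = 1 / 2 + σ := by simp [hσd]
  have hsim : (1 / 2 + r).im = t := by simp [htd]
  have hne : (1 / 2 + r : ℂ) ≠ 1 := by
    intro h
    have := congrArg Complex.re h
    rw [hsre] at this
    simp at this
    linarith
  have hz0 := zeta_ne_zero_of_GRHJ hG (s := 1 / 2 + r) (by rw [hsre]; linarith) (by rw [hsre]; linarith)
  have h1 := zf_deriv (s := 1 / 2 + r) (by rw [hsre]; linarith) hne hz0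
  have h2 := zf_logder (θ := 1 / 2) (δ := σ) le_rfl (by norm_num) hσ (by linarith)
    (fun s hs => zf_ne_zero le_rfl (fun s hs hs1 => zeta_ne_zero_of_GRHJ hG hs hs1) hs)
    (s := 1 / 2 + r) (by rw [hsre]) (by rw [hsre]; linarith)
  rw [hsim] at h2
  have h3 : deriv riemannZeta (1 / 2 + r) / riemannZeta (1 / 2 + r) =
      deriv zf (1 / 2 + r) / zf (1 / 2 + r) - 1 / (1 / 2 + r - 1) := by rw [h1]; ring
  have h4 : ‖1 / (1 / 2 + r - 1)‖ ≤ 10 := by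
    rw [norm_div, norm_one]
    have h5 : 1 / 10 ≤ ‖1 / 2 + r - 1‖ := by
      have := Complex.abs_re_le_norm (1 / 2 + r - 1)
      have h6 : (1 / 2 + r - 1).re = -(1 / 2 - σ) := by
        simp only [sub_re, hsre, one_re]; ring
      rw [h6, abs_neg, abs_of_pos (by linarith)] at this
      linarith
    rw [div_le_iff₀ (by linarith)]
    linarith
  have h5 := log_five_le' t
  have h5' := log_five_le t
  have h6 : 80 / σ ^ 2 * Real.log (|t| + 5) ≤ 80 / c ^ 2 * (4 * (1 + |t|)) := by gcongr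
  rw [h3]
  refine (norm_sub_le _ _).trans ?_
  have h7 : 80 / c ^ 2 * (4 * (1 + |t|)) = 320 / c ^ 2 * (1 + |t|) := by ring
  rw [h7] at h6
  have h8 : (320 / c ^ 2 + 10) * (1 + |t|) = 320 / c ^ 2 * (1 + |t|) + 10 * (1 + |t|) := by ring
  rw [h8]
  linarith

theorem assemble {D1 M1 M2 Z1 SQ GD PR : ℂ} {k1 k2 k3 k4 k5 W : ℝ} (d1 : ‖Z1‖ ≤ k1 * W)
    (d2 : ‖SQ + M1‖ ≤ k2 * W) (d3 : ‖D1 - Z1 + (SQ + (GD + PR))‖ ≤ k3 * W)
    (d4 : ‖GD‖ ≤ k4 * W) (d5 : ‖PR - M2‖ ≤ k5 * W) :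
    ‖D1 - (M1 - M2)‖ ≤ (k1 + k2 + k3 + k4 + k5) * W := by
  have e3 : D1 - (M1 - M2) = (D1 - Z1 + (SQ + (GD + PR))) + Z1 - (SQ + M1) - GD - (PR - M2) := by
    ring
  rw [e3]
  have h1 := norm_sub_le ((D1 - Z1 + (SQ + (GD + PR))) + Z1 - (SQ + M1) - GD) (PR - M2)
  have h2 := norm_sub_le ((D1 - Z1 + (SQ + (GD + PR))) + Z1 - (SQ + M1)) GD
  have h3 := norm_sub_le ((D1 - Z1 + (SQ + (GD + PR))) + Z1) (SQ + M1)
  have h4 := norm_add_le (D1 - Z1 + (SQ + (GD + PR))) Z1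
  linarith

/-- the primes -/
theorem primes_part (hG : GRHJ) {c : ℝ} (hc : 0 < c) (M b1 : ℕ) (hb1 : ((M + 8 : ℕ) : ℝ) ≤ b1 * c) :
    ∃ C : ℝ, 0 ≤ C ∧ ∀ (X : ℝ) (n : ℕ) (r : ℂ), 2 ≤ X → 1 ≤ n →
    X * (7 * Real.log X) ^ b1 < 2 ^ n → (2 : ℝ) ^ n ≤ 4 * (X * (7 * Real.log X) ^ b1) →
    c ≤ r.re → r.re ≤ 2 / 5 →
    ‖∑ p ∈ Finset.Icc 1 (2 ^ n), ap r p * AX X p - Main2 X r‖ ≤
      C * ((1 + |r.im|) * (X ^ (1 - r.re) / (7 * Real.log X) ^ M)) := by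
  obtain ⟨C1, hC1, htriv⟩ := WT_trivial hG hc b1
  obtain ⟨C2, X0, hC2, hfine⟩ := WT_fine hG hc M b1 hb1
  obtain ⟨D6, hD6, hdom6⟩ := dom (M + 6)
  obtain ⟨D2, hD2, hdom2⟩ := dom (M + 2)
  set ℓ0 : ℝ := 7 * Real.log (max X0 2) with hℓ0d
  have hℓ00 : 0 ≤ ℓ0 := by
    have := Real.log_nonneg (show (1 : ℝ) ≤ max X0 2 by linarith [le_max_right X0 2])
    rw [hℓ0d]; linarith
  refine ⟨11 * ((C2 + C1 * ℓ0 ^ (M + 6)) + C1 * D6) + (500 / c ^ 2 + 10) * D2, by positivity, ?_⟩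
  intro X n r hX hn hn1 hn2 hrc hr
  have hL := logX_ge hX
  have hpre : (∀ x : ℝ, 1 ≤ x → x ≤ X → ‖WT r n x - (x : ℂ) ^ (1 - r) * Cr r‖ ≤
      C1 * (1 + |r.im|) * (7 * Real.log X) ^ 6 * x ^ (1 - r.re)) :=
    fun x hx hxX => htriv X n r hX hn hn2 hrc hr x hx hxX
  set ℓ := 7 * Real.log X with hℓ
  have hℓ4 : 4.83 ≤ ℓ := by rw [hℓ]; linarith
  have hℓ1 : 1 ≤ ℓ := by linarith
  have hℓ0 : 0 < ℓ := by linarith
  have hX0 : 0 < X := by linarith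
  have hX1 : 1 ≤ X := by linarith
  have ht := abs_nonneg r.im
  have hσ0 : 0 < r.re := by linarith
  set K1 : ℝ := C1 * (1 + |r.im|) * ℓ ^ 6 with hK1
  set K2 : ℝ := (C2 + C1 * ℓ0 ^ (M + 6)) * (1 + |r.im|) / ℓ ^ M with hK2
  have hK10 : 0 ≤ K1 := by positivity
  have hK20 : 0 ≤ K2 := by positivity
  have hlong : ∀ x : ℝ, √X ≤ x → x ≤ X → ‖WT r n x - (x : ℂ) ^ (1 - r) * Cr r‖ ≤ K2 * x ^ (1 - r.re) := by
    intro x hx1 hx2
    have hsX : 1 ≤ √X := by rw [Real.one_le_sqrt]; exact hX1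
    have hx0 : 0 < x := by linarith
    have hxσ : 0 ≤ x ^ (1 - r.re) := Real.rpow_nonneg hx0.le _
    rcases le_or_gt (max X0 2) X with hcase | hcase
    · have h1 := hfine X n r hX ((le_max_left _ _).trans hcase) hn1 hn2 hrc hr x hx1 hx2
      refine h1.trans ?_
      have h2 : C2 * (1 + |r.im|) * (x ^ (1 - r.re) / ℓ ^ M) = C2 * (1 + |r.im|) / ℓ ^ M * x ^ (1 - r.re) := by
        ring
      rw [h2, hK2]
      gcongr
      have : 0 ≤ C1 * ℓ0 ^ (M + 6) := by positivity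
      linarith
    · refine (hpre x (hsX.trans hx1) hx2).trans ?_
      apply mul_le_mul_of_nonneg_right _ hxσ
      rw [hK2, le_div_iff₀ (by positivity)]
      have h3 : ℓ ≤ ℓ0 := by
        rw [hℓ, hℓ0d]
        have := Real.log_le_log hX0 hcase.le
        linarith
      calc C1 * (1 + |r.im|) * ℓ ^ 6 * ℓ ^ M = C1 * ℓ ^ (M + 6) * (1 + |r.im|) := by ring
        _ ≤ C1 * ℓ0 ^ (M + 6) * (1 + |r.im|) := by gcongr
        _ ≤ _ := by
            gcongr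
            linarith
  have hmain := primes_main' hX1 hσ0 hr hK10 hK20 hpre hlong
  refine hmain.trans ?_
  set W : ℝ := X ^ (1 - r.re) / ℓ ^ M with hW
  have hW0 : 0 < W := by positivity
  have hℓM : 0 < ℓ ^ M := by positivity
  have hXσ : X ^ (1 - r.re) = W * ℓ ^ M := by rw [hW]; field_simp
  have g1 : K2 * X ^ (1 - r.re) = (C2 + C1 * ℓ0 ^ (M + 6)) * ((1 + |r.im|) * W) := by
    rw [hK2, hXσ]
    field_simp
  have g2 : K1 * X ^ (-(1 / 40) : ℝ) * X ^ (1 - r.re) ≤ C1 * D6 * ((1 + |r.im|) * W) := by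
    have h1 := hdom6 X hX
    rw [← hℓ] at h1
    have h2 : ℓ ^ (M + 6) * X ^ (-(1 / 40) : ℝ) ≤ D6 := by
      calc ℓ ^ (M + 6) * X ^ (-(1 / 40) : ℝ) ≤ D6 * X ^ (1 / 40 : ℝ) * X ^ (-(1 / 40) : ℝ) := by gcongr
        _ = D6 * (X ^ (1 / 40 : ℝ) * X ^ (-(1 / 40) : ℝ)) := by ring
        _ = D6 := by
            rw [← Real.rpow_add hX0]
            norm_num
    rw [hK1, hXσ]
    calc C1 * (1 + |r.im|) * ℓ ^ 6 * X ^ (-(1 / 40) : ℝ) * (W * ℓ ^ M) =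
          C1 * (ℓ ^ (M + 6) * X ^ (-(1 / 40) : ℝ)) * ((1 + |r.im|) * W) := by ring
      _ ≤ _ := by gcongr
  have g3 : √X * ℓ ^ 2 ≤ D2 * W := by
    have h1 := hdom2 X hX
    rw [← hℓ] at h1
    rw [hW, mul_div_assoc', le_div_iff₀ hℓM]
    calc √X * ℓ ^ 2 * ℓ ^ M = √X * ℓ ^ (M + 2) := by ring
      _ ≤ √X * (D2 * X ^ (1 / 40 : ℝ)) := by gcongr
      _ = D2 * (X ^ (1 / 2 : ℝ) * X ^ (1 / 40 : ℝ)) := by rw [Real.sqrt_eq_rpow]; ring
      _ = D2 * X ^ (1 / 2 + 1 / 40 : ℝ) := by rw [← Real.rpow_add hX0]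
      _ ≤ D2 * X ^ (1 - r.re) := by
          apply mul_le_mul_of_nonneg_left _ hD2.le
          apply Real.rpow_le_rpow_of_exponent_le hX1
          linarith
  have g4 : 500 * √X / r.re ^ 2 + 10 * √X * (1 + Real.log (4 * X)) ^ 2 ≤
      (500 / c ^ 2 + 10) * D2 * ((1 + |r.im|) * W) := by
    have h1 : 1 + Real.log (4 * X) ≤ ℓ :=
      log_cX (X := X) (u := X) (c := 4) hX hX1 (by nlinarith) (by norm_num) (by norm_num)
    have h2 : 0 ≤ 1 + Real.log (4 * X) := by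
      have := Real.log_nonneg (show (1 : ℝ) ≤ 4 * X by linarith)
      linarith
    calc 500 * √X / r.re ^ 2 + 10 * √X * (1 + Real.log (4 * X)) ^ 2
        ≤ 500 * √X / c ^ 2 + 10 * √X * ℓ ^ 2 := by gcongr
      _ = (500 / c ^ 2) * (√X * 1) + 10 * (√X * ℓ ^ 2) := by ring
      _ ≤ (500 / c ^ 2) * (√X * ℓ ^ 2) + 10 * (√X * ℓ ^ 2) := by
          have : 1 ≤ ℓ ^ 2 := one_le_pow₀ hℓ1
          gcongr
      _ = (500 / c ^ 2 + 10) * (√X * ℓ ^ 2) := by ring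
      _ ≤ (500 / c ^ 2 + 10) * (D2 * W) := by gcongr
      _ = (500 / c ^ 2 + 10) * D2 * (1 * W) := by ring
      _ ≤ _ := by
          gcongr
          linarith
  have e1 : 11 * (K2 + K1 * X ^ (-(1 / 40) : ℝ)) * X ^ (1 - r.re) =
      11 * (K2 * X ^ (1 - r.re) + K1 * X ^ (-(1 / 40) : ℝ) * X ^ (1 - r.re)) := by ring
  rw [e1, g1]
  have e2 : (11 * ((C2 + C1 * ℓ0 ^ (M + 6)) + C1 * D6) + (500 / c ^ 2 + 10) * D2) * ((1 + |r.im|) * W) =
      11 * ((C2 + C1 * ℓ0 ^ (M + 6)) * ((1 + |r.im|) * W) + C1 * D6 * ((1 + |r.im|) * W)) +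
      (500 / c ^ 2 + 10) * D2 * ((1 + |r.im|) * W) := by ring
  rw [e2]
  linarith only [g2, g4]

/-- **The ratios formula for the logarithmic derivatives with both main terms.** Under the Riemann
hypothesis for the `L(s, χ_n)`, `n` odd and squarefree. -/
theorem result (hG : GRHJ) {c : ℝ} (hc : 0 < c) (M : ℕ) :
    ∃ K : ℝ, ∀ (X : ℝ) (r : ℂ), 2 ≤ X → c ≤ r.re → r.re ≤ 2 / 5 →
    ‖DS X r - (Main1 X r - Main2 X r)‖ ≤ K * (1 + |r.im|) * (X ^ (1 - r.re) / Real.log X ^ M) := by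
  set b1 : ℕ := ⌈((M + 8 : ℕ) : ℝ) / c⌉₊ with hb1d
  have hb1 : ((M + 8 : ℕ) : ℝ) ≤ b1 * c := by
    have := Nat.le_ceil (((M + 8 : ℕ) : ℝ) / c)
    rw [div_le_iff₀ hc] at this
    exact this
  obtain ⟨C5, hC5, hprim⟩ := primes_part hG hc M b1 hb1
  obtain ⟨D3, hD3, hdom3⟩ := dom (M + 3)
  set κ : ℝ := b1 + 6 with hκ
  have hκ1 : 1 ≤ κ := by
    have : (0 : ℝ) ≤ b1 := Nat.cast_nonneg b1
    rw [hκ]; linarith
  have hκ0 : 0 < κ := by linarith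
  refine ⟨((320 / c ^ 2 + 10) * D3 + ((κ + 1 / c) * (1 / c) + 3 / c ^ 2 * D3) +
    50000 * 33 * 4 * (κ + 8 / c) ^ 4 * (1 / c) + 240 * (2 * κ) ^ 3 * D3 + C5) / 7 ^ M, ?_⟩
  intro X r hX hσc hσ1
  have hL := logX_ge hX
  have hlogs := fun n hn => logs_F hX b1 n hn
  have hdom := hdom3 X hX
  have hpr := fun n h1 h2 h3 => hprim X n r hX h1 h2 h3 hσc hσ1
  rw [← hκ] at hlogs
  set ℓ : ℝ := 7 * Real.log X with hℓ
  have hℓ4 : 4.83 ≤ ℓ := by rw [hℓ]; linarith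
  have hℓ1 : 1 ≤ ℓ := by linarith
  have hℓ0 : 0 < ℓ := by linarith
  have hX0 : 0 < X := by linarith
  have hX1 : 1 ≤ X := by linarith
  set σ := r.re with hσd
  set t := r.im with htd
  have hσ : 0 < σ := by linarith
  have ht := abs_nonneg t
  have hsX1 : 1 ≤ √X := by rw [Real.one_le_sqrt]; exact hX1
  -- the length
  set z := X * ℓ ^ b1 with hz
  have hXz : X ≤ z := le_mul_of_one_le_right hX0.le (one_le_pow₀ hℓ1)
  have hz1 : 1 ≤ z := hX1.trans hXz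
  have hz0 : 0 < z := by linarith
  obtain ⟨k, hk1, hk2⟩ := exists_nat_pow_near hz1 (by norm_num : (1 : ℝ) < 4)
  set T : ℝ := 2 ^ (k + 1) with hT
  have hT0 : 0 < T := by positivity
  have hT1 : 1 ≤ T := one_le_pow₀ (by norm_num)
  set n : ℕ := 2 * (k + 1) with hn
  have hTn : T ^ 2 = 2 ^ n := by rw [hT, hn, ← pow_mul, mul_comm (k + 1) 2]
  have hT4 : T ^ 2 = 4 ^ (k + 1) := by
    rw [hTn, hn, pow_mul]
    norm_num
  have hzT : z < T ^ 2 := by rw [hT4]; exact hk2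
  have hTz : T ^ 2 ≤ 4 * z := by
    rw [hT4, pow_succ]
    linarith
  have hT2 : 1 ≤ T ^ 2 := one_le_pow₀ hT1
  have hT2σ : (T ^ 2) ^ (-σ) = T ^ (-(2 * σ)) := by
    rw [← Real.rpow_natCast, ← Real.rpow_mul hT0.le]
    congr 1
    push_cast
    ring
  obtain ⟨hlog, hnℓ⟩ := hlogs n (by rw [← hTn]; exact hTz)
  have hlog18 : Real.log (18 * T ^ 2) ≤ κ * ℓ := hlog (T ^ 2) hT2 (by rw [hTn])
  set W : ℝ := X ^ (1 - σ) / ℓ ^ M with hW
  have hW0 : 0 < W := by positivity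
  have hℓM : 0 < ℓ ^ M := by positivity
  have hXT : X * (T ^ 2) ^ (-σ) ≤ W / ℓ ^ 8 := by
    have h1 : (T ^ 2) ^ (-σ) ≤ z ^ (-σ) := Real.rpow_le_rpow_of_nonpos hz0 hzT.le (by linarith)
    have h2 : X * z ^ (-σ) ≤ X ^ (1 - σ) / ℓ ^ (M + 8) := by
      apply rpow_loss hX0 hℓ1
      refine hb1.trans ?_
      have : (0 : ℝ) ≤ b1 := Nat.cast_nonneg b1
      gcongr
    have h3 : X ^ (1 - σ) / ℓ ^ (M + 8) = W / ℓ ^ 8 := by
      rw [hW, pow_add]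
      field_simp
    rw [← h3]
    refine le_trans ?_ h2
    gcongr
  have hsW : √X * ℓ ^ 3 ≤ D3 * W := by
    rw [hW, mul_div_assoc', le_div_iff₀ hℓM]
    calc √X * ℓ ^ 3 * ℓ ^ M = √X * ℓ ^ (M + 3) := by ring
      _ ≤ √X * (D3 * X ^ (1 / 40 : ℝ)) := by gcongr
      _ = D3 * (X ^ (1 / 2 : ℝ) * X ^ (1 / 40 : ℝ)) := by rw [Real.sqrt_eq_rpow]; ring
      _ = D3 * X ^ (1 / 2 + 1 / 40 : ℝ) := by rw [← Real.rpow_add hX0]
      _ ≤ D3 * X ^ (1 - σ) := by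
          apply mul_le_mul_of_nonneg_left _ hD3.le
          apply Real.rpow_le_rpow_of_exponent_le hX1
          linarith
  have hℓ3 : 1 ≤ ℓ ^ 3 := one_le_pow₀ hℓ1
  have hsW0 : √X ≤ D3 * W := by
    refine le_trans ?_ hsW
    exact le_mul_of_one_le_right (Real.sqrt_nonneg _) hℓ3
  have h1W : 1 ≤ D3 * W := hsX1.trans hsW0
  set U : ℝ := (1 + |t|) * W with hU
  have hU0 : 0 < U := by positivity
  have hWU : W ≤ U := by
    rw [hU]
    exact le_mul_of_one_le_left hW0.le (by linarith)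
  -- the pieces
  have hrr : ((σ : ℂ) + t * I) = r := Complex.re_add_im r
  have d1 : ‖deriv riemannZeta (1 / 2 + r) / riemannZeta (1 / 2 + r)‖ ≤ (320 / c ^ 2 + 10) * D3 * U := by
    refine (zeta_term hG hc hσc hσ1).trans ?_
    rw [← htd]
    calc (320 / c ^ 2 + 10) * (1 + |t|) = (320 / c ^ 2 + 10) * (1 + |t|) * 1 := (mul_one _).symm
      _ ≤ (320 / c ^ 2 + 10) * (1 + |t|) * (D3 * W) := by gcongr
      _ = _ := by rw [hU]; ring
  have hflT : ⌊T⌋₊ = 2 ^ (k + 1) := by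
    rw [hT]
    have : ((2 : ℝ) ^ (k + 1)) = ((2 ^ (k + 1) : ℕ) : ℝ) := by push_cast; rfl
    rw [this, Nat.floor_natCast]
  have hflTT : (⌊T⌋₊ : ℝ) = T := by rw [hflT, hT]; push_cast; rfl
  have hlogT : Real.log T ≤ κ * ℓ := by
    refine le_trans (Real.log_le_log hT0 ?_) hlog18
    have hTT : T ≤ T ^ 2 := by
      calc T = T * 1 := (mul_one T).symm
        _ ≤ T * T := by gcongr
        _ = T ^ 2 := (sq T).symm
    linarith
  have hlogT0 : 0 ≤ Real.log T := Real.log_nonneg hT1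
  have hinv : 1 / σ ≤ 1 / c := by gcongr
  have d2 : ‖∑ l ∈ Finset.Icc 1 ⌊T⌋₊, ((ArithmeticFunction.vonMangoldt l : ℝ) : ℂ) *
      (l : ℂ) ^ (-(1 + 2 * r)) * AX X (l ^ 2) + Main1 X r‖ ≤
      ((κ + 1 / c) * (1 / c) + 3 / c ^ 2 * D3) * U := by
    have h1 := squares_main (X := X) hX1 (r := r) hσ (D := ⌊T⌋₊)
      (by rw [hflT]; exact Nat.one_le_two_pow)
    rw [← hσd, hflTT] at h1
    refine h1.trans ?_
    have h2 : Real.log T + 1 / σ ≤ (κ + 1 / c) * ℓ := by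
      have h5 : 1 / c ≤ 1 / c * ℓ := le_mul_of_one_le_right (by positivity) hℓ1
      linarith only [hlogT, hinv, h5]
    have h3 : X * ((Real.log T + 1 / σ) * T ^ (-(2 * σ)) / σ) =
        (Real.log T + 1 / σ) * (1 / σ) * (X * (T ^ 2) ^ (-σ)) := by rw [hT2σ]; ring
    have h4 : 3 * √X / σ ^ 2 ≤ 3 * √X / c ^ 2 := by gcongr
    have h6 : ℓ * (W / ℓ ^ 8) ≤ W := by
      calc ℓ * (W / ℓ ^ 8) = W / ℓ ^ 7 := by field_simp
        _ ≤ W := div_le_self hW0.le (one_le_pow₀ hℓ1)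
    rw [h3]
    calc _ ≤ ((κ + 1 / c) * ℓ) * (1 / c) * (W / ℓ ^ 8) + 3 * √X / c ^ 2 := by gcongr
      _ = (κ + 1 / c) * (1 / c) * (ℓ * (W / ℓ ^ 8)) + 3 / c ^ 2 * √X := by ring
      _ ≤ (κ + 1 / c) * (1 / c) * W + 3 / c ^ 2 * (D3 * W) := by gcongr
      _ = ((κ + 1 / c) * (1 / c) + 3 / c ^ 2 * D3) * W := by ring
      _ ≤ _ := by gcongr
  -- truncation
  have b3 : X * TE X (T ^ 2) σ t ≤ 50000 * 33 * 4 * (κ + 8 / c) ^ 4 * (1 / c) * U := by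
    unfold TE
    have h1 : Real.log (16 * (X + 1)) ≤ ℓ := by
      refine (Real.log_le_log (by positivity) ?_).trans (log_16X hX)
      nlinarith only [hX]
    have h2 : Real.log (9 * T ^ 2) ≤ κ * ℓ :=
      (Real.log_le_log (by positivity) (by linarith)).trans hlog18
    have h4 : 0 ≤ Real.log (9 * T ^ 2) := Real.log_nonneg (by linarith)
    have h5 : Real.log (9 * T ^ 2) + 8 / σ ≤ (κ + 8 / c) * ℓ := by
      have h51 : 8 / σ ≤ 8 / c := by gcongr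
      have h52 : 8 / c ≤ 8 / c * ℓ := le_mul_of_one_le_right (by positivity) hℓ1
      linarith only [h51, h52, h2]
    have h6 : 0 ≤ Real.log (16 * (X + 1)) := by
      have := log_q_le (q := X) hX0.le
      linarith
    have h7 : 32 * Real.log (16 * (X + 1)) + 1 ≤ 33 * ℓ := by linarith
    have h10 := log_five_le' t
    have h10' := log_five_le t
    have h8 : X * (50000 * (32 * Real.log (16 * (X + 1)) + 1) * Real.log (|t| + 5) *
        ((Real.log (9 * T ^ 2) + 8 / σ) ^ 4 * (T ^ 2) ^ (-σ) / σ)) =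
        50000 * (32 * Real.log (16 * (X + 1)) + 1) * Real.log (|t| + 5) *
        ((Real.log (9 * T ^ 2) + 8 / σ) ^ 4 * (1 / σ)) * (X * (T ^ 2) ^ (-σ)) := by ring
    rw [h8]
    have h9 : 0 ≤ Real.log (9 * T ^ 2) + 8 / σ := by positivity
    have h11 : ℓ ^ 5 * (W / ℓ ^ 8) ≤ W := by
      calc ℓ ^ 5 * (W / ℓ ^ 8) = W / ℓ ^ 3 := by field_simp
        _ ≤ W := div_le_self hW0.le (one_le_pow₀ hℓ1)
    calc _ ≤ 50000 * (33 * ℓ) * (4 * (1 + |t|)) * (((κ + 8 / c) * ℓ) ^ 4 * (1 / c)) * (W / ℓ ^ 8) := by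
          gcongr
      _ = 50000 * 33 * 4 * (κ + 8 / c) ^ 4 * (1 / c) * ((1 + |t|) * (ℓ ^ 5 * (W / ℓ ^ 8))) := by ring
      _ ≤ _ := by rw [hU]; gcongr
  have hdec := DS_decomp hG (X := X) (P := T ^ 2) (σ := σ) (t := t) hX1 hT2 hσ (by linarith)
  rw [hrr] at hdec
  have hsplit := split_squares hT1 X (1 / 2 + r)
  have e2 : 2 * (1 / 2 + r) = 1 + 2 * r := by ring
  rw [e2] at hsplit
  have hfl : ⌊T ^ 2⌋₊ = 2 ^ n := by
    rw [hTn]
    have : ((2 : ℝ) ^ n) = ((2 ^ n : ℕ) : ℝ) := by push_cast; rfl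
    rw [this, Nat.floor_natCast]
  have hns := nonsq_eq (X := X) r (2 ^ n)
  rw [hsplit, hfl, hns] at hdec
  have d3 := hdec.trans b3
  -- the prime powers
  have d4 : ‖∑ m ∈ Finset.Icc 1 (2 ^ n), gd X r m‖ ≤ 240 * (2 * κ) ^ 3 * D3 * U := by
    have hpp := sum_gd hX1 hσ.le hT2
    rw [hfl] at hpp
    refine hpp.trans ?_
    have h1 : 1 + Real.log (4 * T ^ 2) ≤ 2 * κ * ℓ := by
      have h3 : Real.log (4 * T ^ 2) ≤ κ * ℓ :=
        (Real.log_le_log (by positivity) (by linarith)).trans hlog18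
      have h4 : 1 ≤ κ * ℓ := one_le_mul_of_one_le_of_one_le hκ1 hℓ1
      linarith only [h3, h4]
    have h0 : 0 ≤ 1 + Real.log (4 * T ^ 2) := by
      have := Real.log_nonneg (show (1 : ℝ) ≤ 4 * T ^ 2 by linarith)
      linarith
    calc 240 * √X * (1 + Real.log (4 * T ^ 2)) ^ 3 ≤ 240 * √X * (2 * κ * ℓ) ^ 3 := by gcongr
      _ = 240 * (2 * κ) ^ 3 * (√X * ℓ ^ 3) := by ring
      _ ≤ 240 * (2 * κ) ^ 3 * (D3 * W) := by gcongr
      _ = 240 * (2 * κ) ^ 3 * D3 * W := by ring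
      _ ≤ _ := by gcongr
  have d5 := hpr n (by omega) (by rw [← hTn]; exact hzT) (by rw [← hTn]; exact hTz)
  have hfin := assemble d1 d2 d3 d4 d5
  refine hfin.trans (le_of_eq ?_)
  have hpow7 : ℓ ^ M = 7 ^ M * Real.log X ^ M := by rw [hℓ, mul_pow]
  rw [hU, hW, hpow7]
  have h7 : (7 : ℝ) ^ M ≠ 0 := by positivity
  have hLM : Real.log X ^ M ≠ 0 := by
    have : 0 < Real.log X := by linarith
    positivity
  generalize ((320 / c ^ 2 + 10) * D3 + ((κ + 1 / c) * (1 / c) + 3 / c ^ 2 * D3) +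
    50000 * 33 * 4 * (κ + 8 / c) ^ 4 * (1 / c) + 240 * (2 * κ) ^ 3 * D3 + C5) = KK
  field_simp

end Pool.Agent.Results.MP_d713a4_nt.Asymptotic
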