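import Pool.Agent.Helper368_LD.Cont

/-!
# The logarithmic derivative formula in mean square

Under the Riemann hypothesis for the `L(s, χ_n)`, `n` odd and squarefree, the difference between
the two sides of the ratios formula for the sum of `L'/L(1/2 + σ + it, χ_n)` over the odd squarefree
`n ≤ X` has mean square over `|t| ≤ T` at most `X^2 T^(-4σ)` up to powers of `log X`, for
`1 ≤ T ≤ X` and `c / log X ≤ σ ≤ 1/4`.
-/

set_option autoImplicit false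

namespace Pool.Agent.Results.MP_d713a4_nt.MeanSquare

open Complex MeasureTheory Set
open scoped Real
open Pool.Agent.H491R3.J (GRHJ)
open Pool.Agent.Helper368_LD

theorem int_inv {T : ℝ} (hT : 0 ≤ T) :
    ∫ t in (-T)..T, (1 + |t|)⁻¹ = 2 * Real.log (1 + T) := by
  have h1 : ∫ t in (0 : ℝ)..T, (1 + |t|)⁻¹ = Real.log (1 + T) := by
    have h2 : ∫ t in (0 : ℝ)..T, (1 + |t|)⁻¹ = ∫ t in (0 : ℝ)..T, (1 + t)⁻¹ := by
      apply intervalIntegral.integral_congr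
      intro t ht
      rw [uIcc_of_le hT] at ht
      simp only
      rw [abs_of_nonneg ht.1]
    rw [h2, intervalIntegral.integral_comp_add_left (fun x => x⁻¹)]
    have := integral_inv_of_pos (a := 1) (b := 1 + T) (by norm_num) (by linarith)
    simpa using this
  have h3 : ∫ t in (-T)..0, (1 + |t|)⁻¹ = Real.log (1 + T) := by
    have h4 := intervalIntegral.integral_comp_neg (a := 0) (b := T) (fun t : ℝ => (1 + |t|)⁻¹)
    simp only [abs_neg, neg_zero] at h4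
    rw [← h4, h1]
  have hc : Continuous (fun t : ℝ => (1 + |t|)⁻¹) := by
    apply Continuous.inv₀ (by fun_prop)
    intro t
    have := abs_nonneg t
    linarith
  rw [← intervalIntegral.integral_add_adjacent_intervals (hc.intervalIntegrable (-T) 0)
    (hc.intervalIntegrable 0 T), h1, h3]
  ring

/-- the sup norm part of the error -/
theorem sup_part (hG : GRHJ) {c : ℝ} (hc : 0 < c) : ∃ K : ℝ, 0 ≤ K ∧ ∀ X T σ t : ℝ, 2 ≤ X → 1 ≤ T →
    T ≤ X → c / Real.log X ≤ σ → σ ≤ 1 / 4 → |t| ≤ T →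
    ‖DS X ((σ : ℂ) + t * I) - Main1 X ((σ : ℂ) + t * I) + NS X T ((σ : ℂ) + t * I)‖ ≤
      K * (7 * Real.log X) ^ 7 * (X * T ^ (-(2 * σ)) + √X) := by
  set A : ℝ := 1 / (7 * c) + 1 with hA
  have hA1 : 1 ≤ A := by
    rw [hA]
    have : 0 < 1 / (7 * c) := by positivity
    linarith
  refine ⟨10 ^ 12 * A ^ 5, by positivity, ?_⟩
  intro X T σ t hX hT hTX hσc hσ1 ht
  have hL := logX_ge hX
  set ℓ : ℝ := 7 * Real.log X with hℓ
  have hℓ1 : 1 ≤ ℓ := by rw [hℓ]; linarith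
  have hℓ0 : 0 < ℓ := by linarith
  have hX0 : 0 < X := by linarith
  have hT0 : 0 < T := by linarith
  have hσ : 0 < σ := lt_of_lt_of_le (by positivity) hσc
  have hinv : 1 / σ ≤ A * ℓ := by
    have h1 : 1 / σ ≤ Real.log X / c := by
      rw [div_le_div_iff₀ hσ hc]
      rw [div_le_iff₀ (by linarith)] at hσc
      linarith
    have h2 : Real.log X / c = 1 / (7 * c) * ℓ := by rw [hℓ]; field_simp
    rw [h2] at h1
    refine h1.trans ?_
    rw [hA]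
    nlinarith
  have hXX : X ≤ X ^ 2 := by nlinarith
  have hT2 : 1 ≤ T ^ 2 := one_le_pow₀ hT
  have hlogt : Real.log (|t| + 5) ≤ ℓ := by
    have h1 : |t| + 5 ≤ 4 * X := by linarith
    have h2 := log_cX (X := X) (u := X) (c := 4) hX (by linarith) hXX (by norm_num) (by norm_num)
    have h3 : Real.log (|t| + 5) ≤ Real.log (4 * X) := Real.log_le_log (by positivity) h1
    linarith
  have hlogt1 := log_five_le t
  set r : ℂ := (σ : ℂ) + t * I with hr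
  have hrre : r.re = σ := by simp [hr]
  have hrim : r.im = t := by simp [hr]
  -- the term `n = 1`
  have b1 : ‖deriv riemannZeta (1 / 2 + r) / riemannZeta (1 / 2 + r)‖ ≤ 84 * A ^ 2 * ℓ ^ 3 := by
    have hsre : (1 / 2 + r).re = 1 / 2 + σ := by simp [hrre]
    have hsim : (1 / 2 + r).im = t := by simp [hrim]
    have hne : (1 / 2 + r : ℂ) ≠ 1 := by
      intro h
      have := congrArg Complex.re h
      rw [hsre] at this
      simp at this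
      linarith
    have hz0 := zeta_ne_zero_of_GRHJ hG (s := 1 / 2 + r) (by rw [hsre]; linarith) (by rw [hsre]; linarith)
    have h1 := zf_deriv (s := 1 / 2 + r) (by rw [hsre]; linarith) hne hz0
    have h2 := zf_logder (θ := 1 / 2) (δ := σ) le_rfl (by norm_num) hσ (by linarith)
      (fun s hs => zf_ne_zero le_rfl (fun s hs hs1 => zeta_ne_zero_of_GRHJ hG hs hs1) hs)
      (s := 1 / 2 + r) (by rw [hsre]) (by rw [hsre]; linarith)
    rw [hsim] at h2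
    have h3 : deriv riemannZeta (1 / 2 + r) / riemannZeta (1 / 2 + r) =
        deriv zf (1 / 2 + r) / zf (1 / 2 + r) - 1 / (1 / 2 + r - 1) := by rw [h1]; ring
    have h4 : ‖1 / (1 / 2 + r - 1)‖ ≤ 4 := by
      rw [norm_div, norm_one]
      have h5 : 1 / 4 ≤ ‖1 / 2 + r - 1‖ := by
        have := Complex.abs_re_le_norm (1 / 2 + r - 1)
        have h6 : (1 / 2 + r - 1).re = -(1 / 2 - σ) := by
          simp only [sub_re, hsre, one_re]; ring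
        rw [h6, abs_neg, abs_of_pos (by linarith)] at this
        linarith
      rw [div_le_iff₀ (by linarith)]
      linarith
    rw [h3]
    refine (norm_sub_le _ _).trans ?_
    have h7 : 80 / σ ^ 2 * Real.log (|t| + 5) ≤ 80 * (A * ℓ) ^ 2 * ℓ := by
      have : 80 / σ ^ 2 = 80 * (1 / σ) ^ 2 := by field_simp
      rw [this]
      gcongr
    have h8 : 1 ≤ A ^ 2 * ℓ ^ 3 := one_le_mul_of_one_le_of_one_le (one_le_pow₀ hA1) (one_le_pow₀ hℓ1)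
    nlinarith
  -- squares
  set D : ℕ := ⌊T⌋₊ with hD
  have hD1 : 1 ≤ D := Nat.le_floor (by simpa using hT)
  have hDT : (D : ℝ) ≤ T := Nat.floor_le hT0.le
  have hD2 : T / 2 ≤ D := by
    have h1 := Nat.lt_floor_add_one T
    have h2 : (1 : ℝ) ≤ D := by exact_mod_cast hD1
    rw [← hD] at h1
    linarith
  have hTs : 0 < T ^ (-(2 * σ)) := Real.rpow_pos_of_pos hT0 _
  have hDs : (D : ℝ) ^ (-(2 * σ)) ≤ 2 * T ^ (-(2 * σ)) := by
    calc (D : ℝ) ^ (-(2 * σ)) ≤ (T / 2) ^ (-(2 * σ)) :=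
          Real.rpow_le_rpow_of_nonpos (by positivity) hD2 (by linarith)
      _ = T ^ (-(2 * σ)) * 2 ^ (2 * σ) := by
          rw [Real.div_rpow hT0.le (by norm_num), Real.rpow_neg (by norm_num : (0 : ℝ) ≤ 2)]
          field_simp
      _ ≤ T ^ (-(2 * σ)) * 2 ^ (1 : ℝ) := by
          gcongr
          · norm_num
          · linarith
      _ = _ := by rw [Real.rpow_one]; ring
  have hlogD : Real.log D ≤ ℓ := by
    have h1 : Real.log D ≤ Real.log X :=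
      Real.log_le_log (by exact_mod_cast hD1) (hDT.trans hTX)
    rw [hℓ]; linarith
  have b2 : ‖∑ l ∈ Finset.Icc 1 D, ((ArithmeticFunction.vonMangoldt l : ℝ) : ℂ) *
      (l : ℂ) ^ (-(1 + 2 * r)) * AX X (l ^ 2) + Main1 X r‖ ≤
      4 * A ^ 2 * ℓ ^ 2 * (X * T ^ (-(2 * σ))) + 3 * A ^ 2 * ℓ ^ 2 * √X := by
    have h1 := squares_main (X := X) (by linarith) (r := r) (by rw [hrre]; exact hσ) hD1
    rw [hrre] at h1
    refine h1.trans ?_
    have hl0 : 0 ≤ Real.log (D : ℝ) := Real.log_nonneg (by exact_mod_cast hD1)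
    have h2 : Real.log D + 1 / σ ≤ 2 * A * ℓ := by nlinarith
    have h3 : X * ((Real.log D + 1 / σ) * (D : ℝ) ^ (-(2 * σ)) / σ) =
        X * ((Real.log D + 1 / σ) * (D : ℝ) ^ (-(2 * σ)) * (1 / σ)) := by ring
    have h4 : 3 * √X / σ ^ 2 = 3 * √X * (1 / σ) ^ 2 := by field_simp
    rw [h3, h4]
    calc _ ≤ X * ((2 * A * ℓ) * (2 * T ^ (-(2 * σ))) * (A * ℓ)) + 3 * √X * (A * ℓ) ^ 2 := by
          gcongr
      _ = _ := by ring
  -- truncation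
  have b3 : TE X (T ^ 2) σ t ≤ 2 * 10 ^ 10 * A ^ 5 * ℓ ^ 7 * T ^ (-(2 * σ)) := by
    unfold TE
    have h1 : Real.log (16 * (X + 1)) ≤ ℓ :=
      (Real.log_le_log (by positivity) (by linarith)).trans (log_16X hX)
    have h2 : Real.log (9 * T ^ 2) ≤ ℓ := by
      refine (Real.log_le_log (by positivity) ?_).trans
        (log_18u (u := T ^ 2) hX hT2 (by gcongr))
      linarith
    have h3 : (T ^ 2) ^ (-σ) = T ^ (-(2 * σ)) := by
      rw [← Real.rpow_natCast, ← Real.rpow_mul hT0.le]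
      congr 1
      push_cast
      ring
    have h4 : 0 ≤ Real.log (9 * T ^ 2) := Real.log_nonneg (by linarith)
    have h5 : Real.log (9 * T ^ 2) + 8 / σ ≤ 9 * A * ℓ := by
      have h51 : 8 / σ = 8 * (1 / σ) := by ring
      have h52 : ℓ ≤ A * ℓ := le_mul_of_one_le_left hℓ0.le hA1
      rw [h51]
      linarith
    have h6 : 0 ≤ Real.log (16 * (X + 1)) := by
      have := log_q_le (q := X) hX0.le
      linarith
    have h7 : 32 * Real.log (16 * (X + 1)) + 1 ≤ 33 * ℓ := by linarith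
    rw [h3]
    have h8 : 50000 * (32 * Real.log (16 * (X + 1)) + 1) * Real.log (|t| + 5) *
        ((Real.log (9 * T ^ 2) + 8 / σ) ^ 4 * T ^ (-(2 * σ)) / σ) =
        50000 * (32 * Real.log (16 * (X + 1)) + 1) * Real.log (|t| + 5) *
        ((Real.log (9 * T ^ 2) + 8 / σ) ^ 4 * T ^ (-(2 * σ)) * (1 / σ)) := by ring
    rw [h8]
    have h9 : 0 ≤ Real.log (9 * T ^ 2) + 8 / σ := by positivity
    calc _ ≤ 50000 * (33 * ℓ) * ℓ * ((9 * A * ℓ) ^ 4 * T ^ (-(2 * σ)) * (A * ℓ)) := by gcongr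
      _ = 10825650000 * (A ^ 5 * ℓ ^ 7 * T ^ (-(2 * σ))) := by ring
      _ ≤ 2 * 10 ^ 10 * (A ^ 5 * ℓ ^ 7 * T ^ (-(2 * σ))) := by
          have : 0 ≤ A ^ 5 * ℓ ^ 7 * T ^ (-(2 * σ)) := by positivity
          exact mul_le_mul_of_nonneg_right (by norm_num) this
      _ = _ := by ring
  have hdec := DS_decomp hG (X := X) (P := T ^ 2) (σ := σ) (t := t) (by linarith) hT2 hσ
    (by linarith)
  rw [← hr] at hdec
  have hsplit := split_squares hT X (1 / 2 + r)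
  have e2 : 2 * (1 / 2 + r) = 1 + 2 * r := by ring
  rw [e2] at hsplit
  rw [hsplit] at hdec
  set Z1 := deriv riemannZeta (1 / 2 + r) / riemannZeta (1 / 2 + r) with hZ1
  set SQ := ∑ l ∈ Finset.Icc 1 ⌊T⌋₊, ((ArithmeticFunction.vonMangoldt l : ℝ) : ℂ) *
      (l : ℂ) ^ (-(1 + 2 * r)) * AX X (l ^ 2) with hSQ
  have hNS : ∑ m ∈ (Finset.Icc 1 ⌊T ^ 2⌋₊).filter (fun m => ¬ IsSquare m),
        ((ArithmeticFunction.vonMangoldt m : ℝ) : ℂ) * (m : ℂ) ^ (-(1 / 2 + r)) * AX X m = NS X T r := rfl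
  rw [hNS] at hdec
  have e3 : DS X r - Main1 X r + NS X T r = (DS X r - Z1 + (SQ + NS X T r)) + Z1 -
      (SQ + Main1 X r) := by ring
  rw [e3]
  have hb2' : ‖SQ + Main1 X r‖ ≤ 4 * A ^ 2 * ℓ ^ 2 * (X * T ^ (-(2 * σ))) +
      3 * A ^ 2 * ℓ ^ 2 * √X := b2
  have hsX : 1 ≤ √X := by rw [Real.one_le_sqrt]; linarith
  have hb3 : X * TE X (T ^ 2) σ t ≤ X * (2 * 10 ^ 10 * A ^ 5 * ℓ ^ 7 * T ^ (-(2 * σ))) :=
    mul_le_mul_of_nonneg_left b3 hX0.le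
  have hAℓ1 : A ^ 2 * ℓ ^ 3 ≤ A ^ 5 * ℓ ^ 7 := by
    have := pow_le_pow_right₀ hA1 (show 2 ≤ 5 by norm_num)
    have := pow_le_pow_right₀ hℓ1 (show 3 ≤ 7 by norm_num)
    gcongr
  have hAℓ2 : A ^ 2 * ℓ ^ 2 ≤ A ^ 5 * ℓ ^ 7 := by
    have := pow_le_pow_right₀ hA1 (show 2 ≤ 5 by norm_num)
    have := pow_le_pow_right₀ hℓ1 (show 2 ≤ 7 by norm_num)
    gcongr
  set W := A ^ 5 * ℓ ^ 7 with hW
  have hW0 : 0 ≤ W := by positivity
  set U := X * T ^ (-(2 * σ)) with hU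
  have hU0 : 0 ≤ U := by positivity
  calc _ ≤ ‖DS X r - Z1 + (SQ + NS X T r) + Z1‖ + ‖SQ + Main1 X r‖ := norm_sub_le _ _
    _ ≤ (‖DS X r - Z1 + (SQ + NS X T r)‖ + ‖Z1‖) + ‖SQ + Main1 X r‖ := by
        gcongr
        exact norm_add_le _ _
    _ ≤ (X * (2 * 10 ^ 10 * A ^ 5 * ℓ ^ 7 * T ^ (-(2 * σ))) + 84 * A ^ 2 * ℓ ^ 3) +
        (4 * A ^ 2 * ℓ ^ 2 * U + 3 * A ^ 2 * ℓ ^ 2 * √X) :=
        add_le_add (add_le_add (hdec.trans hb3) b1) hb2'
    _ = (2 * 10 ^ 10 * W * U + 84 * (A ^ 2 * ℓ ^ 3)) +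
        (4 * (A ^ 2 * ℓ ^ 2) * U + 3 * (A ^ 2 * ℓ ^ 2) * √X) := by rw [hW, hU]; ring
    _ ≤ (2 * 10 ^ 10 * W * U + 84 * W * √X) + (4 * W * U + 3 * W * √X) := by
        have h1 : 84 * (A ^ 2 * ℓ ^ 3) ≤ 84 * W * √X := by nlinarith
        have h2 : 4 * (A ^ 2 * ℓ ^ 2) * U ≤ 4 * W * U := by gcongr
        have h3 : 3 * (A ^ 2 * ℓ ^ 2) * √X ≤ 3 * W * √X := by gcongr
        linarith
    _ ≤ 10 ^ 12 * W * (U + √X) := by
        have h1 : 0 ≤ W * U := by positivity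
        have h2 : 0 ≤ W * √X := by positivity
        nlinarith
    _ = _ := by rw [hW]; ring

/-- **The ratios formula for the logarithmic derivatives in mean square.** Under the Riemann
hypothesis for the `L(s, χ_n)`, `n` odd and squarefree. -/
theorem result (hG : GRHJ) {c : ℝ} (hc : 0 < c) : ∃ K : ℝ, ∀ X T σ : ℝ, 2 ≤ X → 1 ≤ T → T ≤ X →
    c / Real.log X ≤ σ → σ ≤ 1 / 4 →
    IntervalIntegrable (fun t : ℝ => ‖DS X ((σ : ℂ) + t * I) -
      (Main1 X ((σ : ℂ) + t * I) - Main2 X ((σ : ℂ) + t * I))‖ ^ 2) volume (-T) T ∧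
    ∫ t in (-T)..T, ‖DS X ((σ : ℂ) + t * I) -
      (Main1 X ((σ : ℂ) + t * I) - Main2 X ((σ : ℂ) + t * I))‖ ^ 2 ≤
      K * Real.log X ^ 14 * (X ^ 2 * T ^ (1 - 4 * σ)) := by
  obtain ⟨K1, hK1, hsup⟩ := sup_part hG hc
  obtain ⟨K2, hK2, hM2⟩ := Main2_bound
  set A : ℝ := 1 / (7 * c) + 1 with hA
  have hA1 : 1 ≤ A := by
    rw [hA]
    have : 0 < 1 / (7 * c) := by positivity
    linarith
  refine ⟨(2 * 10 ^ 8 + 32 * K1 ^ 2 + 8 * K2 ^ 2 * A ^ 2) * 7 ^ 14, ?_⟩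
  intro X T σ hX hT hTX hσc hσ1
  have hL := logX_ge hX
  have hσ : 0 < σ := lt_of_lt_of_le (by positivity) hσc
  have hX0 : 0 < X := by linarith
  have hT0 : 0 < T := by linarith
  have hcont := diff_continuous hG hX0 hσ (by linarith : σ < 1 / 2)
  have hcont2 : Continuous (fun t : ℝ => ‖DS X ((σ : ℂ) + t * I) -
      (Main1 X ((σ : ℂ) + t * I) - Main2 X ((σ : ℂ) + t * I))‖ ^ 2) := hcont.norm.pow 2
  refine ⟨hcont2.intervalIntegrable _ _, ?_⟩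
  set ℓ : ℝ := 7 * Real.log X with hℓ
  have hℓ1 : 1 ≤ ℓ := by rw [hℓ]; linarith
  have hℓ0 : 0 < ℓ := by linarith
  have hinv : 1 / σ ≤ A * ℓ := by
    have h1 : 1 / σ ≤ Real.log X / c := by
      rw [div_le_div_iff₀ hσ hc]
      rw [div_le_iff₀ (by linarith)] at hσc
      linarith
    have h2 : Real.log X / c = 1 / (7 * c) * ℓ := by rw [hℓ]; field_simp
    rw [h2] at h1
    refine h1.trans ?_
    rw [hA]
    nlinarith
  set S0 : ℝ := K1 * ℓ ^ 7 * (X * T ^ (-(2 * σ)) + √X) with hS0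
  have hTs : 0 < T ^ (-(2 * σ)) := Real.rpow_pos_of_pos hT0 _
  have hS00 : 0 ≤ S0 := by positivity
  have hTp : 0 < T ^ (1 - 4 * σ) := Real.rpow_pos_of_pos hT0 _
  have hTp1 : 1 ≤ T ^ (1 - 4 * σ) := Real.one_le_rpow hT (by linarith)
  have hpt : ∀ t ∈ Icc (-T) T, ‖DS X ((σ : ℂ) + t * I) -
      (Main1 X ((σ : ℂ) + t * I) - Main2 X ((σ : ℂ) + t * I))‖ ^ 2 ≤
      2 * ‖NS X T ((σ : ℂ) + t * I)‖ ^ 2 + 4 * S0 ^ 2 +
        4 * (K2 * X * (1 / σ)) ^ 2 * (1 + |t|)⁻¹ := by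
    intro t ht
    have ht' : |t| ≤ T := abs_le.2 ht
    have h1 := hsup X T σ t hX hT hTX hσc hσ1 ht'
    rw [← hℓ, ← hS0] at h1
    have h2 := hM2 X σ t (by linarith) hσ hσ1
    have ht0 := abs_nonneg t
    have hs2 : 0 < √(1 + |t|) := Real.sqrt_pos.2 (by linarith)
    have hs3 : √(1 + |t|) ^ 2 = 1 + |t| := Real.sq_sqrt (by linarith)
    set Z := DS X ((σ : ℂ) + t * I) - Main1 X ((σ : ℂ) + t * I) + NS X T ((σ : ℂ) + t * I) with hZ
    set N := NS X T ((σ : ℂ) + t * I) with hN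
    set M := Main2 X ((σ : ℂ) + t * I) with hM
    have e1 : DS X ((σ : ℂ) + t * I) - (Main1 X ((σ : ℂ) + t * I) - M) = (Z + M) - N := by
      rw [hZ]; ring
    rw [e1]
    have h3 : ‖(Z + M) - N‖ ≤ (‖Z‖ + ‖M‖) + ‖N‖ :=
      (norm_sub_le _ _).trans (add_le_add_left (norm_add_le _ _) _)
    have h4 : ‖M‖ ^ 2 ≤ (K2 * X * (1 / σ)) ^ 2 * (1 + |t|)⁻¹ := by
      calc ‖M‖ ^ 2 ≤ (K2 * X * (1 / σ) * (√(1 + |t|))⁻¹) ^ 2 := by gcongr
        _ = (K2 * X * (1 / σ)) ^ 2 * (√(1 + |t|) ^ 2)⁻¹ := by rw [mul_pow, inv_pow]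
        _ = _ := by rw [hs3]
    have h5 : ‖Z‖ ^ 2 ≤ S0 ^ 2 := by gcongr
    have hn1 := norm_nonneg Z
    have hn2 := norm_nonneg M
    have hn3 := norm_nonneg N
    have hn4 := norm_nonneg ((Z + M) - N)
    calc ‖(Z + M) - N‖ ^ 2 ≤ ((‖Z‖ + ‖M‖) + ‖N‖) ^ 2 := by gcongr
      _ ≤ 2 * ‖N‖ ^ 2 + 4 * ‖Z‖ ^ 2 + 4 * ‖M‖ ^ 2 := by
          nlinarith [sq_nonneg (‖Z‖ + ‖M‖ - ‖N‖), sq_nonneg (‖Z‖ - ‖M‖)]
      _ ≤ _ := by nlinarith
  have hNc : Continuous (fun t : ℝ => ‖NS X T ((σ : ℂ) + t * I)‖ ^ 2) := by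
    have h1 : ∀ t : ℝ, NS X T ((σ : ℂ) + t * I) =
        ∑ m ∈ Finset.Icc 1 ⌊T ^ 2⌋₊, cf X σ m * Pool.Agent.TH705.DL.ph (-t) m := NS_eq X T σ
    simp_rw [h1]
    have h2 : ∀ m : ℕ, Continuous (fun t : ℝ => Pool.Agent.TH705.DL.ph (-t) m) := fun m =>
      (Pool.Agent.TH705.DL.ph_cont m).comp continuous_neg
    exact ((continuous_finsetSum _ fun m _ => (continuous_const.mul (h2 m))).norm).pow 2
  have hIc : Continuous (fun t : ℝ => (1 + |t|)⁻¹) := by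
    apply Continuous.inv₀ (by fun_prop)
    intro t
    have := abs_nonneg t
    linarith
  have hNS := NS_mean hG hX hT hTX hσ hσ1
  rw [← hℓ] at hNS
  have hint : ∫ t in (-T)..T, ‖DS X ((σ : ℂ) + t * I) -
      (Main1 X ((σ : ℂ) + t * I) - Main2 X ((σ : ℂ) + t * I))‖ ^ 2 ≤
      ∫ t in (-T)..T, (2 * ‖NS X T ((σ : ℂ) + t * I)‖ ^ 2 + 4 * S0 ^ 2 +
        4 * (K2 * X * (1 / σ)) ^ 2 * (1 + |t|)⁻¹) := by
    apply intervalIntegral.integral_mono_on (by linarith) (hcont2.intervalIntegrable _ _)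
    · exact (((continuous_const.mul hNc).add continuous_const).add
        (continuous_const.mul hIc)).intervalIntegrable _ _
    · exact hpt
  refine hint.trans ?_
  have i1 : Continuous (fun t : ℝ => 2 * ‖NS X T ((σ : ℂ) + t * I)‖ ^ 2) := continuous_const.mul hNc
  have i2 : Continuous (fun _ : ℝ => 4 * S0 ^ 2) := continuous_const
  have i3 : Continuous (fun t : ℝ => 4 * (K2 * X * (1 / σ)) ^ 2 * (1 + |t|)⁻¹) :=
    continuous_const.mul hIc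
  have i12 : Continuous (fun t : ℝ => 2 * ‖NS X T ((σ : ℂ) + t * I)‖ ^ 2 + 4 * S0 ^ 2) := i1.add i2
  rw [intervalIntegral.integral_add (i12.intervalIntegrable _ _) (i3.intervalIntegrable _ _),
    intervalIntegral.integral_add (i1.intervalIntegrable _ _) (i2.intervalIntegrable _ _)]
  have j1 : ∫ t in (-T)..T, 2 * ‖NS X T ((σ : ℂ) + t * I)‖ ^ 2 =
      2 * ∫ t in (-T)..T, ‖NS X T ((σ : ℂ) + t * I)‖ ^ 2 := by
    rw [intervalIntegral.integral_const_mul]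
  have j2 : ∫ _t in (-T)..T, 4 * S0 ^ 2 = (T - -T) * (4 * S0 ^ 2) := by
    rw [intervalIntegral.integral_const, smul_eq_mul]
  have j3 : ∫ t in (-T)..T, 4 * (K2 * X * (1 / σ)) ^ 2 * (1 + |t|)⁻¹ =
      4 * (K2 * X * (1 / σ)) ^ 2 * (2 * Real.log (1 + T)) := by
    rw [intervalIntegral.integral_const_mul, int_inv hT0.le]
  rw [j1, j2, j3]
  -- final estimates
  set M0 : ℝ := X ^ 2 * T ^ (1 - 4 * σ) with hM0
  have hM00 : 0 < M0 := by positivity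
  have hX2 : X ^ 2 ≤ M0 := by
    rw [hM0]; nlinarith [sq_nonneg X]
  have hXT : X * T ≤ M0 := by
    have : X * T ≤ X ^ 2 := by nlinarith
    linarith
  have hsq1 : (X * T ^ (-(2 * σ))) ^ 2 * T = M0 := by
    rw [hM0, mul_pow, ← Real.rpow_natCast (T ^ (-(2 * σ))), ← Real.rpow_mul hT0.le, mul_assoc]
    congr 1
    nth_rewrite 2 [← Real.rpow_one T]
    rw [← Real.rpow_add hT0]
    congr 1
    push_cast
    ring
  have hsX : √X ^ 2 = X := Real.sq_sqrt hX0.le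
  have c2 : (T - -T) * (4 * S0 ^ 2) ≤ 32 * K1 ^ 2 * ℓ ^ 14 * M0 := by
    have h1 : S0 ^ 2 ≤ K1 ^ 2 * ℓ ^ 14 * (2 * (X * T ^ (-(2 * σ))) ^ 2 + 2 * √X ^ 2) := by
      rw [hS0, mul_pow, mul_pow, ← pow_mul]
      apply mul_le_mul_of_nonneg_left _ (by positivity)
      nlinarith [sq_nonneg (X * T ^ (-(2 * σ)) - √X)]
    calc (T - -T) * (4 * S0 ^ 2) = 8 * T * S0 ^ 2 := by ring
      _ ≤ 8 * T * (K1 ^ 2 * ℓ ^ 14 * (2 * (X * T ^ (-(2 * σ))) ^ 2 + 2 * √X ^ 2)) := by gcongr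
      _ = 16 * K1 ^ 2 * ℓ ^ 14 * ((X * T ^ (-(2 * σ))) ^ 2 * T + X * T) := by rw [hsX]; ring
      _ ≤ 16 * K1 ^ 2 * ℓ ^ 14 * (M0 + M0) := by rw [hsq1]; gcongr
      _ = _ := by ring
  have c3 : 4 * (K2 * X * (1 / σ)) ^ 2 * (2 * Real.log (1 + T)) ≤ 8 * K2 ^ 2 * A ^ 2 * ℓ ^ 14 * M0 := by
    have h1 : Real.log (1 + T) ≤ ℓ := by
      have h2 := log_cX (X := X) (u := X) (c := 2) hX (by linarith) (by nlinarith) (by norm_num)
        (by norm_num)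
      have h3 : Real.log (1 + T) ≤ Real.log (2 * X) := Real.log_le_log (by positivity) (by linarith)
      linarith
    have h0 : 0 ≤ Real.log (1 + T) := Real.log_nonneg (by linarith)
    calc 4 * (K2 * X * (1 / σ)) ^ 2 * (2 * Real.log (1 + T))
        ≤ 4 * (K2 * X * (A * ℓ)) ^ 2 * (2 * ℓ) := by gcongr
      _ = 8 * K2 ^ 2 * A ^ 2 * ℓ ^ 3 * X ^ 2 := by ring
      _ ≤ 8 * K2 ^ 2 * A ^ 2 * ℓ ^ 14 * M0 := by
          have : ℓ ^ 3 ≤ ℓ ^ 14 := pow_le_pow_right₀ hℓ1 (by norm_num)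
          gcongr
  have c1 : 2 * ∫ t in (-T)..T, ‖NS X T ((σ : ℂ) + t * I)‖ ^ 2 ≤ 2 * 10 ^ 8 * ℓ ^ 14 * M0 := by
    have : ℓ ^ 9 ≤ ℓ ^ 14 := pow_le_pow_right₀ hℓ1 (by norm_num)
    calc _ ≤ 2 * (10 ^ 8 * ℓ ^ 9 * M0) := by gcongr
      _ ≤ 2 * (10 ^ 8 * ℓ ^ 14 * M0) := by gcongr
      _ = _ := by ring
  have hfin : (2 * 10 ^ 8 + 32 * K1 ^ 2 + 8 * K2 ^ 2 * A ^ 2) * 7 ^ 14 * Real.log X ^ 14 * M0 =
      2 * 10 ^ 8 * ℓ ^ 14 * M0 + 32 * K1 ^ 2 * ℓ ^ 14 * M0 + 8 * K2 ^ 2 * A ^ 2 * ℓ ^ 14 * M0 := by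
    rw [hℓ]; ring
  rw [hfin]
  linarith

end Pool.Agent.Results.MP_d713a4_nt.MeanSquare
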