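import Pool.Agent.Helper368_LD.NsqPrimes
import Pool.Agent.Helper368_LD.PrimePow
import Pool.Agent.Helper368_LD.NSMean

/-!
# The logarithmic derivative formula pointwise

Let all zeros of the `L(s, χ_n)`, `n` odd and squarefree, in the critical strip lie on the critical
line, and let no real Dirichlet `L`-function vanish in the half plane `Re s > Θ`, where
`1/2 ≤ Θ < 1`. Then the sum of `L'/L(1/2 + r, χ_n)` over the odd squarefree `n ≤ X` equals the sum of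
the two main terms of the ratios formula up to `X^{max(1/2, 1 - Re r/Θ)}` times powers of `log X`
and `log(|Im r| + 5)`, for `c / log X ≤ Re r ≤ 2/5` and all `Im r`.
-/

set_option autoImplicit false

namespace Pool.Agent.Results.MP_d713a4_nt.Pointwise

open Complex MeasureTheory Set
open scoped Real
open Pool.Agent.H491R3.J (GRHJ)
open Pool.Agent.Helper368_LD

theorem assemble {D1 M1 M2 Z1 SQ GD PR : ℂ} {W : ℝ} (hW0 : 0 ≤ W) (d1 : ‖Z1‖ ≤ 90 * W)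
    (d2 : ‖SQ + M1‖ ≤ 5 * W) (d3 : ‖D1 - Z1 + (SQ + (GD + PR))‖ ≤ 2 * 10 ^ 10 * W)
    (d4 : ‖GD‖ ≤ 1920 * W) (d5 : ‖PR - M2‖ ≤ (6 * 10 ^ 8 + 97 + 500 + 10) * W) :
    ‖D1 - (M1 - M2)‖ ≤ 10 ^ 12 * W := by
  have e3 : D1 - (M1 - M2) = (D1 - Z1 + (SQ + (GD + PR))) + Z1 - (SQ + M1) - GD - (PR - M2) := by
    ring
  rw [e3]
  have h1 := norm_sub_le ((D1 - Z1 + (SQ + (GD + PR))) + Z1 - (SQ + M1) - GD) (PR - M2)
  have h2 := norm_sub_le ((D1 - Z1 + (SQ + (GD + PR))) + Z1 - (SQ + M1)) GD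
  have h3 := norm_sub_le ((D1 - Z1 + (SQ + (GD + PR))) + Z1) (SQ + M1)
  have h4 := norm_add_le (D1 - Z1 + (SQ + (GD + PR))) Z1
  linarith

theorem c5_le {A b ℓ LT V : ℝ} (hA1 : 1 ≤ A) (hb1 : 1 ≤ b) (hℓ1 : 1 ≤ ℓ) (hLT1 : 1 ≤ LT) (hV0 : 0 < V) :
    (6 * 10 ^ 8 * (b ^ 6 * ℓ ^ 7 * LT) + 97 * (A * ℓ) ^ 2) * V * ℓ +
      500 * (A * ℓ) ^ 2 * V + 10 * ℓ ^ 2 * V ≤
      (6 * 10 ^ 8 + 97 + 500 + 10) * (A ^ 5 * b ^ 6 * ℓ ^ 8 * LT * V) := by
  set W := A ^ 5 * b ^ 6 * ℓ ^ 8 * LT * V with hWd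
  have hAp : ∀ i j : ℕ, i ≤ 5 → j ≤ 8 → A ^ i * ℓ ^ j * V ≤ W := by
    intro i j hi hj
    have h1 : A ^ i ≤ A ^ 5 := pow_le_pow_right₀ hA1 hi
    have h2 : ℓ ^ j ≤ ℓ ^ 8 := pow_le_pow_right₀ hℓ1 hj
    have h3 : 1 ≤ b ^ 6 := one_le_pow₀ hb1
    calc A ^ i * ℓ ^ j * V ≤ A ^ 5 * ℓ ^ 8 * V := by gcongr
      _ = A ^ 5 * 1 * ℓ ^ 8 * 1 * V := by ring
      _ ≤ A ^ 5 * b ^ 6 * ℓ ^ 8 * LT * V := by gcongr
  have h1 := hAp 2 3 (by norm_num) (by norm_num)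
  have h2 := hAp 2 2 (by norm_num) (by norm_num)
  have h3 := hAp 0 2 (by norm_num) (by norm_num)
  have h4 : b ^ 6 * ℓ ^ 8 * LT * V ≤ W := by
    rw [hWd]
    have : 1 ≤ A ^ 5 := one_le_pow₀ hA1
    calc b ^ 6 * ℓ ^ 8 * LT * V = 1 * b ^ 6 * ℓ ^ 8 * LT * V := by ring
      _ ≤ A ^ 5 * b ^ 6 * ℓ ^ 8 * LT * V := by gcongr
  calc _ = 6 * 10 ^ 8 * (b ^ 6 * ℓ ^ 8 * LT * V) + 97 * (A ^ 2 * ℓ ^ 3 * V) +
        500 * (A ^ 2 * ℓ ^ 2 * V) + 10 * (A ^ 0 * ℓ ^ 2 * V) := by ring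
    _ ≤ _ := by linarith

/-- **The ratios formula for the logarithmic derivatives, pointwise.** -/
theorem result (hG : GRHJ) {Θ : ℝ} (hR : RealHyp Θ) (hΘ : 1 / 2 ≤ Θ) (hΘ1 : Θ < 1) {c : ℝ}
    (hc : 0 < c) : ∃ K : ℝ, ∀ (X : ℝ) (r : ℂ), 2 ≤ X → c / Real.log X ≤ r.re → r.re ≤ 2 / 5 →
    ‖DS X r - (Main1 X r - Main2 X r)‖ ≤
      K * Real.log X ^ 8 * Real.log (|r.im| + 5) * X ^ (max (1 / 2) (1 - r.re / Θ)) := by
  set A : ℝ := 1 / (7 * c) + 1 with hA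
  have hA1 : 1 ≤ A := by
    rw [hA]
    have : 0 < 1 / (7 * c) := by positivity
    linarith
  set B : ℕ := ⌈8 / (1 - Θ)⌉₊ with hB
  have hB1 : 8 / (1 - Θ) ≤ B := Nat.le_ceil _
  set b : ℝ := 2 * B + 11 with hb
  have hb1 : 1 ≤ b := by
    have : (0 : ℝ) ≤ B := Nat.cast_nonneg B
    rw [hb]; linarith
  refine ⟨10 ^ 12 * (A ^ 5 * b ^ 6) * 7 ^ 8, ?_⟩
  intro X r hX hσc hσ1
  have hL := logX_ge hX
  set ℓ : ℝ := 7 * Real.log X with hℓ
  have hℓ4 : 4.83 ≤ ℓ := by rw [hℓ]; linarith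
  have hℓ1 : 1 ≤ ℓ := by linarith
  have hℓ0 : 0 < ℓ := by linarith
  have hX0 : 0 < X := by linarith
  have hX1 : 1 ≤ X := by linarith
  have hΘ0 : 0 < Θ := by linarith
  set σ := r.re with hσd
  set t := r.im with htd
  have hσ : 0 < σ := lt_of_lt_of_le (by positivity) hσc
  have hinv : 1 / σ ≤ A * ℓ := by
    have h1 : 1 / σ ≤ Real.log X / c := by
      rw [div_le_div_iff₀ hσ hc]
      rw [div_le_iff₀ (by linarith)] at hσc
      linarith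
    have h2 : Real.log X / c = 1 / (7 * c) * ℓ := by rw [hℓ]; field_simp
    rw [h2] at h1
    refine h1.trans ?_
    rw [hA]
    nlinarith only [hA1, hℓ0, h1]
  have hinv0 : 0 < 1 / σ := by positivity
  set LT := Real.log (|t| + 5) with hLT
  have hLT1 : 1 ≤ LT := log_five_le t
  set e := max (1 / 2) (1 - σ / Θ) with he
  have he1 : (1 / 2 : ℝ) ≤ e := le_max_left _ _
  have he2 : 1 - σ / Θ ≤ e := le_max_right _ _
  set V := X ^ e with hV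
  have hV0 : 0 < V := Real.rpow_pos_of_pos hX0 _
  have hsV : √X ≤ V := by
    rw [Real.sqrt_eq_rpow]
    exact Real.rpow_le_rpow_of_exponent_le hX1 he1
  have hsX1 : 1 ≤ √X := by rw [Real.one_le_sqrt]; exact hX1
  have hV1 : 1 ≤ V := hsX1.trans hsV
  -- the length
  set z := X ^ (1 / Θ) with hz
  have hz1 : 1 ≤ z := Real.one_le_rpow hX1 (by positivity)
  have hz0 : 0 < z := by linarith
  have hzX : z ≤ X ^ 2 := by
    have h1 : z ≤ X ^ (2 : ℝ) := by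
      apply Real.rpow_le_rpow_of_exponent_le hX1
      rw [div_le_iff₀ hΘ0]
      linarith
    rwa [Real.rpow_two] at h1
  have hzV : X * z ^ (-σ) ≤ V := by
    have h1 : X * z ^ (-σ) = X ^ (1 - σ / Θ) := by
      rw [hz, ← Real.rpow_mul hX0.le]
      nth_rewrite 1 [← Real.rpow_one X]
      rw [← Real.rpow_add hX0]
      congr 1
      ring
    rw [h1]
    exact Real.rpow_le_rpow_of_exponent_le hX1 he2
  obtain ⟨k, hk1, hk2⟩ := exists_nat_pow_near hz1 (by norm_num : (1 : ℝ) < 4)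
  set T : ℝ := 2 ^ (k + 1) with hT
  have hT0 : 0 < T := by positivity
  have hT1 : 1 ≤ T := one_le_pow₀ (by norm_num)
  set n : ℕ := 2 * (k + 1) with hn
  have hTn : T ^ 2 = 2 ^ n := by rw [hT, hn, ← pow_mul, mul_comm (k + 1) 2]
  have hT4 : T ^ 2 = 4 ^ (k + 1) := by
    rw [hTn, hn, pow_mul]
    norm_num
  have hzT : z < T ^ 2 := by rw [hT4]; exact hk2
  have hTX : T ^ 2 ≤ 4 * X ^ 2 := by
    rw [hT4, pow_succ]
    linarith
  have hT2 : 1 ≤ T ^ 2 := one_le_pow₀ hT1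
  have hTσ : (T ^ 2) ^ (-σ) ≤ z ^ (-σ) := Real.rpow_le_rpow_of_nonpos hz0 hzT.le (by linarith)
  have hT2σ : (T ^ 2) ^ (-σ) = T ^ (-(2 * σ)) := by
    rw [← Real.rpow_natCast, ← Real.rpow_mul hT0.le]
    congr 1
    push_cast
    ring
  have hTσ0 : 0 < (T ^ 2) ^ (-σ) := Real.rpow_pos_of_pos (by positivity) _
  have hXT : X * (T ^ 2) ^ (-σ) ≤ V := by
    refine le_trans ?_ hzV
    gcongr
  have hX4 : 4 * X ^ 2 ≤ X ^ 4 := by
    have h4 : (4 : ℝ) ≤ X ^ 2 := by nlinarith only [hX]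
    nlinarith only [h4, sq_nonneg X]
  have hlogT2 : Real.log (T ^ 2) ≤ ℓ := by
    have h1 : Real.log (T ^ 2) ≤ Real.log (X ^ 4) :=
      Real.log_le_log (by positivity) (hTX.trans hX4)
    have h2 : Real.log (X ^ 4) = 4 * Real.log X := by rw [Real.log_pow]; norm_num
    rw [h2] at h1
    rw [hℓ]
    linarith
  have hlogT20 : 0 ≤ Real.log (T ^ 2) := Real.log_nonneg hT2
  have hnℓ : (n : ℝ) ≤ 2 * ℓ := by
    have h1 : Real.log (T ^ 2) = n * Real.log 2 := by rw [hTn, Real.log_pow]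
    have h2 := Real.log_two_gt_d9
    rw [h1] at hlogT2
    have h3 : (0 : ℝ) ≤ n := Nat.cast_nonneg n
    nlinarith only [h2, h3, hlogT2, hℓ0]
  -- the primes
  set Y : ℝ := X ^ 4 with hY
  have hY2 : 2 ≤ Y := by
    have h4 : (4 : ℝ) ≤ X ^ 2 := by nlinarith only [hX]
    linarith
  have hXY : 2 * X ≤ Y := by
    have h4 : (4 : ℝ) ≤ X ^ 2 := by nlinarith only [hX]
    nlinarith only [h4, hX, hX4]
  have hlY : lY B Y ≤ b * ℓ := by
    unfold lY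
    rw [hY, Real.log_pow, ← hb, hℓ]
    push_cast
    nlinarith only [hb1, hL]
  have hlY1 : 7 ≤ lY B Y := lY_ge hY2 B
  have hDY : DY B Y t ≤ 10 ^ 6 * LT * (b * ℓ) ^ 5 := by
    unfold DY
    gcongr
  have hDY1 : 10 ^ 6 ≤ DY B Y t := DY_ge hY2 B t
  set KX : ℝ := n * (300 * DY B Y t * lY B Y) +
        (41 + 7 * (1 + Real.log (2 ^ n) + 2 / σ) * (2 / σ)) with hKX
  have h2σ : 2 / σ ≤ 2 * (A * ℓ) := by
    have : 2 / σ = 2 * (1 / σ) := by ring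
    rw [this]
    linarith
  have hAℓ : ℓ ≤ A * ℓ := le_mul_of_one_le_left hℓ0.le hA1
  have hAℓ1 : 1 ≤ A * ℓ := hℓ1.trans hAℓ
  have hlog2n : Real.log (2 ^ n) ≤ ℓ := by rw [← hTn]; exact hlogT2
  have hlog2n0 : 0 ≤ Real.log ((2 : ℝ) ^ n) := by rw [← hTn]; exact hlogT20
  have hKX0 : 0 ≤ KX := by
    have h1 : 0 ≤ DY B Y t := by linarith
    have h2 : 0 ≤ lY B Y := by linarith
    rw [hKX]
    positivity
  have hKXle : KX ≤ 6 * 10 ^ 8 * (b ^ 6 * ℓ ^ 7 * LT) + 97 * (A * ℓ) ^ 2 := by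
    have h1 : n * (300 * DY B Y t * lY B Y) ≤ 2 * ℓ * (300 * (10 ^ 6 * LT * (b * ℓ) ^ 5) * (b * ℓ)) := by
      gcongr
    have h2 : 7 * (1 + Real.log (2 ^ n) + 2 / σ) * (2 / σ) ≤ 7 * (A * ℓ + A * ℓ + 2 * (A * ℓ)) *
        (2 * (A * ℓ)) := by
      have h3 : Real.log (2 ^ n) ≤ A * ℓ := hlog2n.trans hAℓ
      gcongr
    have h4 : 1 ≤ (A * ℓ) ^ 2 := one_le_pow₀ hAℓ1
    rw [hKX]
    calc _ ≤ 2 * ℓ * (300 * (10 ^ 6 * LT * (b * ℓ) ^ 5) * (b * ℓ)) +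
          (41 * (A * ℓ) ^ 2 + 7 * (A * ℓ + A * ℓ + 2 * (A * ℓ)) * (2 * (A * ℓ))) := by linarith
      _ = _ := by ring
  have hW : ∀ x : ℝ, 1 ≤ x → x ≤ X → ‖WT r n x - (x : ℂ) ^ (1 - r) * Cr r‖ ≤ KX * x ^ e := by
    intro x hx hxX
    have hxn : x ^ (1 / Θ) < 2 ^ n := by
      rw [← hTn]
      refine lt_of_le_of_lt ?_ hzT
      exact Real.rpow_le_rpow (by linarith) hxX (by positivity)
    exact WT_main hG hR hΘ hΘ1 hB1 hY2 hσ hσ1 hx (by linarith) hxn (by rw [← hTn]; linarith)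
  have hprim := primes_main hX1 hσ hσ1 hKX0 he1 hW
  rw [← hV, ← hσd] at hprim
  -- the prime powers
  have hpp := sum_gd hX1 hσ.le hT2
  have hfl : ⌊T ^ 2⌋₊ = 2 ^ n := by
    rw [hTn]
    have : ((2 : ℝ) ^ n) = ((2 ^ n : ℕ) : ℝ) := by push_cast; rfl
    rw [this, Nat.floor_natCast]
  rw [hfl] at hpp
  have hns := nonsq_eq (X := X) r (2 ^ n)
  -- the term `n = 1`
  have hrr : ((σ : ℂ) + t * I) = r := Complex.re_add_im r
  have b1 : ‖deriv riemannZeta (1 / 2 + r) / riemannZeta (1 / 2 + r)‖ ≤ 90 * (A * ℓ) ^ 2 * LT := by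
    have hsre : (1 / 2 + r).re = 1 / 2 + σ := by simp [hσd]
    have hsim : (1 / 2 + r).im = t := by simp [htd]
    have hne : (1 / 2 + r : ℂ) ≠ 1 := by
      intro h
      have := congrArg Complex.re h
      rw [hsre] at this
      simp at this
      linarith
    have hz0 := zeta_ne_zero_of_GRHJ hG (s := 1 / 2 + r) (by rw [hsre]; linarith) (by rw [hsre]; linarith)
    have h1 := zf_deriv (s := 1 / 2 + r) (by rw [hsre]; linarith) hne hz0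
    have h2 := zf_logder (θ := 1 / 2) (δ := σ) le_rfl (by norm_num) hσ (by linarith)
      (fun s hs => zf_ne_zero le_rfl (fun s hs hs1 => zeta_ne_zero_of_GRHJ hG hs hs1) hs)
      (s := 1 / 2 + r) (by rw [hsre]) (by rw [hsre]; linarith)
    rw [hsim, ← hLT] at h2
    have h3 : deriv riemannZeta (1 / 2 + r) / riemannZeta (1 / 2 + r) =
        deriv zf (1 / 2 + r) / zf (1 / 2 + r) - 1 / (1 / 2 + r - 1) := by rw [h1]; ring
    have h4 : ‖1 / (1 / 2 + r - 1)‖ ≤ 10 := by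
      rw [norm_div, norm_one]
      have h5 : 1 / 10 ≤ ‖1 / 2 + r - 1‖ := by
        have := Complex.abs_re_le_norm (1 / 2 + r - 1)
        have h6 : (1 / 2 + r - 1).re = -(1 / 2 - σ) := by
          simp only [sub_re, hsre, one_re]; ring
        rw [h6, abs_neg, abs_of_pos (by linarith)] at this
        linarith
      rw [div_le_iff₀ (by linarith)]
      linarith
    rw [h3]
    refine (norm_sub_le _ _).trans ?_
    have h7 : 80 / σ ^ 2 * LT ≤ 80 * (A * ℓ) ^ 2 * LT := by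
      have : 80 / σ ^ 2 = 80 * (1 / σ) ^ 2 := by field_simp
      rw [this]
      gcongr
    have h8 : 1 ≤ (A * ℓ) ^ 2 * LT := one_le_mul_of_one_le_of_one_le (one_le_pow₀ hAℓ1) hLT1
    nlinarith only [h2, h4, h7, h8]
  -- squares
  have hflT : ⌊T⌋₊ = 2 ^ (k + 1) := by
    rw [hT]
    have : ((2 : ℝ) ^ (k + 1)) = ((2 ^ (k + 1) : ℕ) : ℝ) := by push_cast; rfl
    rw [this, Nat.floor_natCast]
  have hflTT : (⌊T⌋₊ : ℝ) = T := by rw [hflT, hT]; push_cast; rfl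
  have hlogT : Real.log T ≤ ℓ := by
    have h1 : Real.log (T ^ 2) = 2 * Real.log T := by rw [Real.log_pow]; push_cast; ring
    have h2 : 0 ≤ Real.log T := Real.log_nonneg hT1
    rw [h1] at hlogT2
    linarith
  have hlogT0 : 0 ≤ Real.log T := Real.log_nonneg hT1
  have b2 : ‖∑ l ∈ Finset.Icc 1 ⌊T⌋₊, ((ArithmeticFunction.vonMangoldt l : ℝ) : ℂ) *
      (l : ℂ) ^ (-(1 + 2 * r)) * AX X (l ^ 2) + Main1 X r‖ ≤ 5 * (A * ℓ) ^ 2 * V := by
    have h1 := squares_main (X := X) hX1 (r := r) hσ (D := ⌊T⌋₊)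
      (by rw [hflT]; exact Nat.one_le_two_pow)
    rw [← hσd, hflTT] at h1
    refine h1.trans ?_
    have h2 : Real.log T + 1 / σ ≤ 2 * (A * ℓ) := by linarith
    have h3 : X * ((Real.log T + 1 / σ) * T ^ (-(2 * σ)) / σ) =
        (Real.log T + 1 / σ) * (1 / σ) * (X * (T ^ 2) ^ (-σ)) := by rw [hT2σ]; ring
    have h4 : 3 * √X / σ ^ 2 = 3 * (1 / σ) ^ 2 * √X := by field_simp
    rw [h3, h4]
    calc _ ≤ (2 * (A * ℓ)) * (A * ℓ) * V + 3 * (A * ℓ) ^ 2 * V := by gcongr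
      _ = _ := by ring
  -- truncation
  have b3 : X * TE X (T ^ 2) σ t ≤ 2 * 10 ^ 10 * (A * ℓ) ^ 5 * ℓ * LT * V := by
    unfold TE
    have h1 : Real.log (16 * (X + 1)) ≤ ℓ := by
      refine (Real.log_le_log (by positivity) ?_).trans (log_16X hX)
      nlinarith only [hX]
    have h2 : Real.log (9 * T ^ 2) ≤ 2 * ℓ := by
      have h3 : Real.log (9 * T ^ 2) = Real.log 9 + Real.log (T ^ 2) :=
        Real.log_mul (by norm_num) (by positivity)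
      have h4 : Real.log 9 ≤ 3 := by
        have : Real.log 9 ≤ Real.log 18 := Real.log_le_log (by norm_num) (by norm_num)
        exact this.trans log_eighteen
      rw [h3]
      linarith
    have h4 : 0 ≤ Real.log (9 * T ^ 2) := Real.log_nonneg (by linarith)
    have h5 : Real.log (9 * T ^ 2) + 8 / σ ≤ 10 * (A * ℓ) := by
      have h51 : 8 / σ = 8 * (1 / σ) := by ring
      rw [h51]
      linarith
    have h6 : 0 ≤ Real.log (16 * (X + 1)) := by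
      have := log_q_le (q := X) hX0.le
      linarith
    have h7 : 32 * Real.log (16 * (X + 1)) + 1 ≤ 33 * ℓ := by linarith
    rw [← hLT]
    have h8 : X * (50000 * (32 * Real.log (16 * (X + 1)) + 1) * LT *
        ((Real.log (9 * T ^ 2) + 8 / σ) ^ 4 * (T ^ 2) ^ (-σ) / σ)) =
        50000 * (32 * Real.log (16 * (X + 1)) + 1) * LT *
        ((Real.log (9 * T ^ 2) + 8 / σ) ^ 4 * (1 / σ)) * (X * (T ^ 2) ^ (-σ)) := by ring
    rw [h8]
    have h9 : 0 ≤ Real.log (9 * T ^ 2) + 8 / σ := by positivity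
    calc _ ≤ 50000 * (33 * ℓ) * LT * ((10 * (A * ℓ)) ^ 4 * (A * ℓ)) * V := by gcongr
      _ = 16500000000 * ((A * ℓ) ^ 5 * ℓ * LT * V) := by ring
      _ ≤ 2 * 10 ^ 10 * ((A * ℓ) ^ 5 * ℓ * LT * V) := by
          have : 0 ≤ (A * ℓ) ^ 5 * ℓ * LT * V := by positivity
          exact mul_le_mul_of_nonneg_right (by norm_num) this
      _ = _ := by ring
  have hdec := DS_decomp hG (X := X) (P := T ^ 2) (σ := σ) (t := t) hX1 hT2 hσ (by linarith)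
  rw [hrr] at hdec
  have hsplit := split_squares hT1 X (1 / 2 + r)
  have e2 : 2 * (1 / 2 + r) = 1 + 2 * r := by ring
  rw [e2] at hsplit
  rw [hsplit, hfl] at hdec
  rw [hns] at hdec
  set Z1 := deriv riemannZeta (1 / 2 + r) / riemannZeta (1 / 2 + r) with hZ1
  set SQ := ∑ l ∈ Finset.Icc 1 ⌊T⌋₊, ((ArithmeticFunction.vonMangoldt l : ℝ) : ℂ) *
      (l : ℂ) ^ (-(1 + 2 * r)) * AX X (l ^ 2) with hSQ
  set GD := ∑ m ∈ Finset.Icc 1 (2 ^ n), gd X r m with hGD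
  set PR := ∑ p ∈ Finset.Icc 1 (2 ^ n), ap r p * AX X p with hPR
  -- final estimates
  have c4 : ‖GD‖ ≤ 1920 * ℓ ^ 3 * V := by
    refine hpp.trans ?_
    have h1 : 1 + Real.log (4 * T ^ 2) ≤ 2 * ℓ := by
      have h3 : Real.log (4 * T ^ 2) = Real.log 4 + Real.log (T ^ 2) :=
        Real.log_mul (by norm_num) (by positivity)
      have h4 : Real.log 4 ≤ 3 := by
        have : Real.log 4 ≤ Real.log 18 := Real.log_le_log (by norm_num) (by norm_num)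
        exact this.trans log_eighteen
      rw [h3]
      linarith
    have h0 : 0 ≤ 1 + Real.log (4 * T ^ 2) := by
      have := Real.log_nonneg (show (1 : ℝ) ≤ 4 * T ^ 2 by linarith)
      linarith
    calc 240 * √X * (1 + Real.log (4 * T ^ 2)) ^ 3 ≤ 240 * V * (2 * ℓ) ^ 3 := by gcongr
      _ = _ := by ring
  have c5 : ‖PR - Main2 X r‖ ≤ (6 * 10 ^ 8 * (b ^ 6 * ℓ ^ 7 * LT) + 97 * (A * ℓ) ^ 2) * V * ℓ +
      500 * (A * ℓ) ^ 2 * V + 10 * ℓ ^ 2 * V := by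
    refine hprim.trans ?_
    have h1 : 1 + Real.log X ≤ ℓ := by rw [hℓ]; linarith
    have h2 : 1 + Real.log (4 * X) ≤ ℓ := by
      have := log_cX (X := X) (u := X) (c := 4) hX hX1 (by nlinarith only [hX]) (by norm_num) (by norm_num)
      exact this
    have h3 : 500 * √X / σ ^ 2 = 500 * (1 / σ) ^ 2 * √X := by field_simp
    have h4 : 0 ≤ 1 + Real.log (4 * X) := by
      have := Real.log_nonneg (show (1 : ℝ) ≤ 4 * X by linarith)
      linarith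
    have h5 : 0 ≤ 1 + Real.log X := by linarith
    rw [h3]
    calc _ ≤ (6 * 10 ^ 8 * (b ^ 6 * ℓ ^ 7 * LT) + 97 * (A * ℓ) ^ 2) * V * ℓ +
          500 * (A * ℓ) ^ 2 * V + 10 * V * ℓ ^ 2 := by gcongr
      _ = _ := by ring
  set W := A ^ 5 * b ^ 6 * ℓ ^ 8 * LT * V with hWd
  have hW0 : 0 ≤ W := by positivity
  have hAp : ∀ i j : ℕ, i ≤ 5 → j ≤ 8 → A ^ i * ℓ ^ j * V ≤ W := by
    intro i j hi hj
    have h1 : A ^ i ≤ A ^ 5 := pow_le_pow_right₀ hA1 hi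
    have h2 : ℓ ^ j ≤ ℓ ^ 8 := pow_le_pow_right₀ hℓ1 hj
    have h3 : 1 ≤ b ^ 6 := one_le_pow₀ hb1
    calc A ^ i * ℓ ^ j * V ≤ A ^ 5 * ℓ ^ 8 * V := by gcongr
      _ = A ^ 5 * 1 * ℓ ^ 8 * 1 * V := by ring
      _ ≤ A ^ 5 * b ^ 6 * ℓ ^ 8 * LT * V := by gcongr
  have hApL : ∀ i j : ℕ, i ≤ 5 → j ≤ 8 → A ^ i * ℓ ^ j * LT * V ≤ W := by
    intro i j hi hj
    have h1 : A ^ i ≤ A ^ 5 := pow_le_pow_right₀ hA1 hi
    have h2 : ℓ ^ j ≤ ℓ ^ 8 := pow_le_pow_right₀ hℓ1 hj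
    have h3 : 1 ≤ b ^ 6 := one_le_pow₀ hb1
    calc A ^ i * ℓ ^ j * LT * V ≤ A ^ 5 * ℓ ^ 8 * LT * V := by gcongr
      _ = A ^ 5 * 1 * ℓ ^ 8 * LT * V := by ring
      _ ≤ A ^ 5 * b ^ 6 * ℓ ^ 8 * LT * V := by gcongr
  have d1 : ‖Z1‖ ≤ 90 * W := by
    refine b1.trans ?_
    have h1 := hApL 2 2 (by norm_num) (by norm_num)
    calc 90 * (A * ℓ) ^ 2 * LT = 90 * (A ^ 2 * ℓ ^ 2 * LT * 1) := by ring
      _ ≤ 90 * (A ^ 2 * ℓ ^ 2 * LT * V) := by gcongr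
      _ ≤ 90 * W := by linarith only [h1]
  have d2 : ‖SQ + Main1 X r‖ ≤ 5 * W := by
    refine b2.trans ?_
    have h1 := hAp 2 2 (by norm_num) (by norm_num)
    calc 5 * (A * ℓ) ^ 2 * V = 5 * (A ^ 2 * ℓ ^ 2 * V) := by ring
      _ ≤ _ := by linarith only [h1]
  have d3 : ‖DS X r - Z1 + (SQ + (GD + PR))‖ ≤ 2 * 10 ^ 10 * W := by
    refine (hdec.trans b3).trans ?_
    have h1 := hApL 5 6 (by norm_num) (by norm_num)
    calc 2 * 10 ^ 10 * (A * ℓ) ^ 5 * ℓ * LT * V = 2 * 10 ^ 10 * (A ^ 5 * ℓ ^ 6 * LT * V) := by ring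
      _ ≤ _ := by linarith only [h1]
  have d4 : ‖GD‖ ≤ 1920 * W := by
    refine c4.trans ?_
    have h1 := hAp 0 3 (by norm_num) (by norm_num)
    calc 1920 * ℓ ^ 3 * V = 1920 * (A ^ 0 * ℓ ^ 3 * V) := by ring
      _ ≤ _ := by linarith only [h1]
  have d5 : ‖PR - Main2 X r‖ ≤ (6 * 10 ^ 8 + 97 + 500 + 10) * W :=
    c5.trans (c5_le hA1 hb1 hℓ1 hLT1 hV0)
  have hfin : 10 ^ 12 * (A ^ 5 * b ^ 6) * 7 ^ 8 * Real.log X ^ 8 * LT * V = 10 ^ 12 * W := by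
    rw [hWd, hℓ]
    ring
  rw [hfin]
  exact assemble hW0 d1 d2 d3 d4 d5

end Pool.Agent.Results.MP_d713a4_nt.Pointwise
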