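import Pool.Agent.Helper368_LD.QOne
import Pool.Agent.Results.MP_d713a4_nt.Pointwise

/-!
# What the ratios formula for the logarithmic derivatives implies

Let all zeros of the `L(s, χ_n)`, `n` odd and squarefree, in the critical strip lie on the critical
line. If the error of the ratios formula for the sum of `L'/L(1/2 + r, χ_n)` is smaller than
`X^{1 - Re r}` by a power of `X` on one vertical line, then all real nonprincipal Dirichlet
characters have zero free half planes `Re s > Θ` with a common `Θ < 1`, and conversely. If the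
formula holds with the conjectured error, then `Θ = 1/2`.
-/

set_option autoImplicit false

namespace Pool.Agent.Results.MP_d713a4_nt.Necessity

open Complex
open Pool.Agent.H491R3.J (GRHJ)
open Pool.Agent.Helper368_LD

theorem powSave_of_realHyp (hG : GRHJ) {Θ : ℝ} (hΘ1 : Θ < 1) (hR : RealHyp Θ) :
    ∃ σ δ : ℝ, 0 < σ ∧ σ < 1 / 2 ∧ 0 < δ ∧ σ + δ ≤ 1 / 2 ∧ PowSave σ δ := by
  set Θ' : ℝ := max Θ (1 / 2) with hΘ'
  have h12 : 1 / 2 ≤ Θ' := le_max_right _ _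
  have hlt : Θ' < 1 := max_lt hΘ1 (by norm_num)
  have hR' : RealHyp Θ' := by
    intro N _ χ h1 h2 s hs
    exact hR N χ h1 h2 s (lt_of_le_of_lt (le_max_left _ _) hs)
  have hl2 : 0 < Real.log 2 := Real.log_pos (by norm_num)
  obtain ⟨K, hK⟩ := Pool.Agent.Results.MP_d713a4_nt.Pointwise.result hG hR' h12 hlt
    (by positivity : 0 < 1 / 4 * Real.log 2)
  set μ : ℝ := max (1 / 2) (1 - 1 / 4 / Θ') with hμ
  have hμ1 : μ < 3 / 4 := by
    rw [hμ]
    apply max_lt (by norm_num)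
    have h3 : 1 / 4 < 1 / 4 / Θ' := by
      rw [lt_div_iff₀ (by linarith)]
      nlinarith
    linarith
  have hμ0 : 1 / 2 ≤ μ := le_max_left _ _
  set δ : ℝ := (3 / 4 - μ) / 2 with hδ
  have hδ0 : 0 < δ := by rw [hδ]; linarith
  refine ⟨1 / 4, δ, by norm_num, by norm_num, hδ0, by rw [hδ]; linarith, ?_⟩
  refine ⟨|K| * (1 / (δ / 8)) ^ 8 * 4, 1, ?_⟩
  intro X t hX
  have hX0 : 0 < X := by linarith
  have hX1 : 1 ≤ X := by linarith
  have hlX : Real.log 2 ≤ Real.log X := Real.log_le_log (by norm_num) hX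
  have hLX : 0 < Real.log X := by linarith
  have hre : (((1 / 4 : ℝ) : ℂ) + t * I).re = 1 / 4 := by simp
  have him : (((1 / 4 : ℝ) : ℂ) + t * I).im = t := by simp
  have h1 := hK X (((1 / 4 : ℝ) : ℂ) + t * I) hX (by
    rw [hre, div_le_iff₀ hLX]
    exact mul_le_mul_of_nonneg_left hlX (by norm_num)) (by rw [hre]; norm_num)
  rw [hre, him] at h1
  refine h1.trans ?_
  have h2 : Real.log X ≤ X ^ (δ / 8) / (δ / 8) := Real.log_le_rpow_div hX0.le (by positivity)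
  have hpow : (X ^ (δ / 8)) ^ 8 = X ^ δ := by
    rw [← Real.rpow_natCast (X ^ (δ / 8)) 8, ← Real.rpow_mul hX0.le]
    congr 1
    push_cast
    ring
  have h3 : Real.log X ^ 8 ≤ (1 / (δ / 8)) ^ 8 * X ^ δ := by
    calc Real.log X ^ 8 ≤ (X ^ (δ / 8) / (δ / 8)) ^ 8 := by gcongr
      _ = (1 / (δ / 8)) ^ 8 * (X ^ (δ / 8)) ^ 8 := by
          rw [← mul_pow]; congr 1; ring
      _ = _ := by rw [hpow]
  have h4 := log_five_lin t
  have h5 := log_five_le t
  have h6 : X ^ (1 - 1 / 4 - δ) = X ^ δ * X ^ μ := by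
    rw [← Real.rpow_add hX0]
    congr 1
    rw [hδ]; ring
  have h7 : 0 ≤ X ^ μ := Real.rpow_nonneg hX0.le _
  have h8 : 0 ≤ X ^ δ := Real.rpow_nonneg hX0.le _
  have h9 : 0 ≤ |t| := abs_nonneg t
  rw [h6, Real.rpow_one]
  calc K * Real.log X ^ 8 * Real.log (|t| + 5) * X ^ μ
      ≤ |K| * Real.log X ^ 8 * Real.log (|t| + 5) * X ^ μ := by
        have : 0 ≤ Real.log X ^ 8 * Real.log (|t| + 5) * X ^ μ := by positivity
        nlinarith [le_abs_self K]
    _ ≤ |K| * ((1 / (δ / 8)) ^ 8 * X ^ δ) * (4 * (1 + |t|)) * X ^ μ := by gcongr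
    _ = _ := by ring

/-- **The ratios formula and zero free half planes for the real characters.** -/
theorem result (hG : GRHJ) :
    (∀ σ δ : ℝ, 0 < σ → σ < 1 / 2 → 0 < δ → σ + δ ≤ 1 / 2 → PowSave σ δ → RealHyp (1 - δ)) ∧
    (QOne → RealHyp (1 / 2)) ∧
    ((∃ σ δ : ℝ, 0 < σ ∧ σ < 1 / 2 ∧ 0 < δ ∧ σ + δ ≤ 1 / 2 ∧ PowSave σ δ) ↔
      ∃ Θ : ℝ, Θ < 1 ∧ RealHyp Θ) := by
  refine ⟨?_, realHyp_of_QOne hG, ?_, ?_⟩
  · intro σ δ h1 h2 h3 h4 h5
    exact realHyp_of_powSave hG h1 h2 h3 h4 h5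
  · rintro ⟨σ, δ, h1, h2, h3, h4, h5⟩
    exact ⟨1 - δ, by linarith, realHyp_of_powSave hG h1 h2 h3 h4 h5⟩
  · rintro ⟨Θ, h1, h2⟩
    exact powSave_of_realHyp hG h1 h2

end Pool.Agent.Results.MP_d713a4_nt.Necessity
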